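import Pool.Agent.Helper35.GF.Stm

/-! Rank and algebraic independence over a finitely generated field. -/

set_option autoImplicit false

namespace Pool.Agent.Helper22.GF

open Set Pool.Agent.Helper35.EM

theorem adj_sub_cl (S : Set ℂ) {x : ℂ} (hx : x ∈ IntermediateField.adjoin ℚ S) :
    x ∈ M.closure S := by
  have : IntermediateField.adjoin ℚ S ≤ clF S := by
    rw [IntermediateField.adjoin_le_iff]
    intro y hy
    have : y ∈ M.closure S := M.subset_closure S (by simp) hy
    rwa [mem_cl] at this
  rw [mem_cl]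
  exact this hx

theorem ai' (S : Set ℂ) (hS : M.eRk S ≠ ⊤) (r : ℕ) (g : Fin r → ℂ)
    (h : M.eRk S + (r : ℕ∞) ≤ M.eRk (S ∪ range g)) :
    AlgebraicIndependent (IntermediateField.adjoin ℚ S) g := by
  obtain ⟨I, hI⟩ := M.exists_isBasis S (by simp)
  have hIfin : I.Finite := by
    rw [← Set.encard_ne_top_iff, hI.encard_eq_eRk]; exact hS
  have h1 : M.eRk (I ∪ range g) = M.eRk (S ∪ range g) := hI.eRk_eq_eRk_union _
  have : Fintype I := hIfin.fintype
  let f : Fin r ⊕ I → ℂ := Sum.elim g (fun x => (x:ℂ))
  have hr : range f = I ∪ range g := by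
    simp only [f, Sum.elim_range, Subtype.range_coe_subtype, Set.ofPred_mem_eq]
    exact Set.union_comm _ _
  have hcI : (Fintype.card I : ℕ∞) = I.encard := by
    rw [Set.encard_eq_coe_toFinset_card]; simp
  have hcard : ((Fintype.card (Fin r ⊕ I) : ℕ) : ℕ∞) ≤ M.eRk (range f) := by
    rw [hr, h1]
    refine le_trans (le_of_eq ?_) h
    rw [← hI.encard_eq_eRk, ← hcI]
    simp [add_comm]
  have hfin : (range f).Finite := Set.finite_range f
  have hcard2 : ((Fintype.card (Fin r ⊕ I) : ℕ) : ℕ∞) ≤ (range f).encard :=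
    hcard.trans (M.eRk_le_encard _)
  have hinj : Function.Injective f := by
    classical
    have h3 : Fintype.card (Fin r ⊕ I) ≤ (Finset.univ.image f).card := by
      have : (range f).encard = ((Finset.univ.image f).card : ℕ∞) := by
        rw [← Set.encard_coe_eq_coe_finsetCard]; congr 1; ext; simp
      rw [this] at hcard2
      exact_mod_cast hcard2
    have h4 : (Finset.univ.image f).card = Finset.univ.card :=
      le_antisymm Finset.card_image_le (by simpa using h3)
    have := Finset.card_image_iff.1 h4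
    simpa using this
  have hle : (range f).encard ≤ ((Fintype.card (Fin r ⊕ I) : ℕ) : ℕ∞) := by
    have := Set.encard_image_le f univ
    rw [Set.image_univ, Set.encard_univ] at this
    simpa using this
  have hind : M.Indep (range f) := by
    rw [Matroid.indep_iff_eRk_eq_encard_of_finite hfin]
    exact le_antisymm (M.eRk_le_encard _) (hle.trans hcard)
  have hf : AlgebraicIndependent ℚ f := by
    have h5 : AlgebraicIndependent ℚ ((↑) : range f → ℂ) := hind
    exact (algebraicIndependent_subtype_range hinj).1 h5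
  have h6 := (AlgebraicIndependent.sumElim_iff.1 hf).2
  have hrI : range (fun x : I => (x:ℂ)) = I := by simp
  let R0 := Algebra.adjoin ℚ (range (fun x : I => (x:ℂ)))
  let S' := IntermediateField.adjoin ℚ S
  have hle : R0 ≤ S'.toSubalgebra := by
    refine Algebra.adjoin_le ?_
    rw [hrI]
    intro x hx
    exact IntermediateField.subset_adjoin ℚ S (hI.subset hx)
  let _ : Algebra R0 S' := (Subalgebra.inclusion hle).toAlgebra
  have : IsScalarTower R0 S' ℂ := .of_algebraMap_eq fun _ => rfl
  have : Algebra.IsAlgebraic R0 S' := by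
    refine ⟨fun x => ?_⟩
    rw [← isAlgebraic_algHom_iff (IsScalarTower.toAlgHom R0 S' ℂ) Subtype.val_injective]
    change IsAlgebraic R0 (x : ℂ)
    have hx : (x : ℂ) ∈ M.closure S := adj_sub_cl S x.2
    rw [← hI.closure_eq_closure, AlgebraicIndependent.matroid_closure_eq] at hx
    have h7 : IsAlgebraic (Algebra.adjoin ℚ I) (x : ℂ) := by
      exact hx
    have h8 : R0 = Algebra.adjoin ℚ I := by
      simp only [R0, hrI]
    rw [h8]
    exact h7
  exact AlgebraicIndependent.extendScalars S' h6

/-- Package AI. -/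
theorem ai : Pool.Agent.Helper35.GF.S_AlgInd := by
  intro S hS r g h
  refine ai' S (ne_top_of_le_ne_top ?_ (M.eRk_le_encard S)) r g h
  rwa [Set.encard_ne_top_iff]

theorem ai2 (S A : Set ℂ) (hS : M.eRk S ≠ ⊤) (n : ℕ) (h : M.eRk S + (n : ℕ∞) ≤ M.eRk (S ∪ A)) :
    ∃ f : Fin n → ℂ, Function.Injective f ∧ (∀ i, f i ∈ A) ∧
      AlgebraicIndependent (IntermediateField.adjoin ℚ S) f := by
  obtain ⟨I, hI⟩ := M.exists_isBasis S (by simp)
  have hIfin : I.Finite := by
    rw [← Set.encard_ne_top_iff, hI.encard_eq_eRk]; exact hS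
  have h1 : M.eRk (I ∪ A) = M.eRk (S ∪ A) := hI.eRk_eq_eRk_union _
  obtain ⟨J, hJ, hIJ⟩ := hI.indep.subset_isBasis_of_subset
    (show I ⊆ I ∪ A from subset_union_left) (by simp)
  have hJc : I.encard + (n : ℕ∞) ≤ J.encard := by
    rw [hJ.encard_eq_eRk, h1, hI.encard_eq_eRk]; exact h
  have hdiff : (n : ℕ∞) ≤ (J \ I).encard := by
    have h2 : (J \ I).encard + I.encard = J.encard := Set.encard_sdiff_add_encard_of_subset hIJ
    rw [← h2, add_comm] at hJc
    exact (ENat.add_le_add_iff_right (by rw [Set.encard_ne_top_iff]; exact hIfin)).1 hJc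
  obtain ⟨K, hK, hKn⟩ := Set.exists_subset_encard_eq hdiff
  have hKfin : K.Finite := by
    rw [← Set.encard_ne_top_iff, hKn]; simp
  have : Fintype K := hKfin.fintype
  have hKcard : Fintype.card K = n := by
    rw [Set.encard_eq_coe_toFinset_card] at hKn
    have : K.toFinset.card = n := by exact_mod_cast hKn
    rwa [Set.toFinset_card] at this
  let e : Fin n ≃ K := (Fintype.equivFinOfCardEq hKcard).symm
  refine ⟨fun i => (e i : ℂ), Subtype.val_injective.comp e.injective, fun i => ?_, ?_⟩
  · have h3 := hK (e i).2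
    rcases hJ.subset h3.1 with h4 | h4
    · exact absurd h4 h3.2
    · exact h4
  · have hr : range (fun i => (e i : ℂ)) = K := by
      ext x
      constructor
      · rintro ⟨i, rfl⟩; exact (e i).2
      · intro hx; exact ⟨e.symm ⟨x, hx⟩, by simp⟩
    refine ai' S hS n _ ?_
    rw [hr, ← hI.eRk_eq_eRk_union]
    have h5 : M.Indep (I ∪ K) := hJ.indep.subset
      (union_subset hIJ (hK.trans sdiff_subset))
    rw [h5.eRk_eq_encard, ← hI.encard_eq_eRk, Set.encard_union_eq, hKn]
    exact (Set.disjoint_of_subset_right hK disjoint_sdiff_right)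

end Pool.Agent.Helper22.GF
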